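import Mathlib

set_option autoImplicit false

namespace Pool.Agent.Results.MP_339db1_al.NotGenerated

/-- a `d`-CP structure on a monoid `M` -/
structure CP (M : Type) [Monoid M] (d : ℕ) where
  Φ : (Fin d → M) → M
  τ : Fin d → M
  bij : Function.Bijective Φ
  proj : ∀ (m : Fin d → M) (i : Fin d), τ i * Φ m = m i

/-- homomorphisms of CP monoids -/
def IsHom {M N : Type} [Monoid M] [Monoid N] (s : CP M 2) (t : CP N 2) (f : M →* N) : Prop :=
  (∀ i, f (s.τ i) = t.τ i) ∧ ∀ m : Fin 2 → M, f (s.Φ m) = t.Φ (fun i => f (m i))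

/-- `(U, s)` is an initial object of the category of CP monoids -/
def IsInitial {U : Type} [Monoid U] (s : CP U 2) : Prop :=
  ∀ (N : Type) [Monoid N] (t : CP N 2), ∃! f : U →* N, IsHom s t f

/-- the union of the images of the transformation monoids `E_d`, `d ≥ 2`, over all
`d`-CP structures on `M` -/
def Images (M : Type) [Monoid M] : Set M :=
  {x | ∃ (d : ℕ) (_ : 2 ≤ d) (c : CP M d) (f : Fin d → Fin d), x = c.Φ (fun i => c.τ (f i))}

lemma ext_tau {M : Type} [Monoid M] {d : ℕ} (c : CP M d) {x y : M}
    (h : ∀ i, c.τ i * x = c.τ i * y) : x = y := by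
  obtain ⟨a, rfl⟩ := c.bij.2 x
  obtain ⟨b, rfl⟩ := c.bij.2 y
  congr 1
  funext i
  have := h i
  rwa [c.proj, c.proj] at this

lemma unit_of_right_inv {M : Type} [Monoid M] [Nontrivial M] {x : M} (hx : x ∈ Images M)
    {m : M} (hm : x * m = 1) : IsUnit x := by
  classical
  obtain ⟨d, _, c, f, rfl⟩ := hx
  have h1 : ∀ i, c.τ (f i) * m = c.τ i := by
    intro i
    have := congrArg (fun z => c.τ i * z) hm
    simp only [← mul_assoc, c.proj, mul_one] at this
    exact this
  have hinj : Function.Injective f := by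
    intro i j hij
    by_contra hne
    have h2 : c.τ i = c.τ j := by rw [← h1 i, ← h1 j, hij]
    obtain ⟨a, b, hab⟩ := exists_pair_ne M
    have h3 := c.proj (fun k => if k = i then a else b) i
    have h4 := c.proj (fun k => if k = i then a else b) j
    rw [h2, h4] at h3
    simp only [if_true, if_neg (Ne.symm hne)] at h3
    exact hab h3.symm
  have hbij : Function.Bijective f := Finite.injective_iff_bijective.1 hinj
  let e := Equiv.ofBijective f hbij
  have h5 : c.Φ (fun i => c.τ (e.symm i)) * c.Φ (fun i => c.τ (f i)) = 1 := by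
    apply ext_tau c
    intro i
    rw [← mul_assoc, c.proj, c.proj, mul_one]
    congr 1
    exact e.apply_symm_apply i
  have h6 : m = c.Φ (fun i => c.τ (e.symm i)) := by
    calc m = (c.Φ (fun i => c.τ (e.symm i)) * c.Φ (fun i => c.τ (f i))) * m := by
          rw [h5, one_mul]
      _ = _ := by rw [mul_assoc, hm, mul_one]
  exact ⟨⟨_, m, hm, by rw [h6]; exact h5⟩, rfl⟩

lemma closure_unit {M : Type} [Monoid M] [Nontrivial M] {x : M}
    (hx : x ∈ Submonoid.closure (Images M)) : ∀ m : M, x * m = 1 → IsUnit x := by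
  induction hx using Submonoid.closure_induction with
  | mem x hx => exact fun m hm => unit_of_right_inv hx hm
  | one => exact fun _ _ => isUnit_one
  | mul x y _ _ ihx ihy =>
    intro m hm
    have hx : IsUnit x := ihx (y * m) (by rw [← mul_assoc, hm])
    obtain ⟨u, rfl⟩ := hx
    have h1 : y * (m * u) = 1 := by
      have h2 : (↑u⁻¹ : M) * (u * y * m) * u = 1 := by rw [hm, mul_one]; simp
      calc y * (m * u) = (↑u⁻¹ : M) * (u * y * m) * u := by
            simp only [← mul_assoc, Units.inv_mul, one_mul]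
        _ = 1 := h2
    exact (Units.isUnit u).mul (ihy _ h1)

lemma not_mem_of_nontrivial {M : Type} [Monoid M] [Nontrivial M] (s : CP M 2) :
    s.τ 0 ∉ Submonoid.closure (Images M) := by
  intro h
  have h1 : ∀ a : M, s.τ 0 * s.Φ ![1, a] = 1 := fun a => s.proj _ 0
  obtain ⟨u, hu⟩ := closure_unit h _ (h1 1)
  obtain ⟨a, b, hab⟩ := exists_pair_ne M
  have h2 : s.Φ ![1, a] = s.Φ ![1, b] := by
    have := (h1 a).trans (h1 b).symm
    rw [← hu] at this
    exact (Units.mul_right_inj u).1 this
  have h3 := congrFun (s.bij.1 h2) 1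
  exact hab h3

/-- a nonzero CP monoid: all self-maps of the naturals -/
def natCP : CP (Function.End ℕ) 2 where
  Φ m := fun n => Nat.pair (m 0 n) (m 1 n)
  τ := ![fun n => n.unpair.1, fun n => n.unpair.2]
  bij := by
    constructor
    · intro a b h
      funext i n
      have := congrFun h n
      simp only [Nat.pair_eq_pair] at this
      fin_cases i
      · exact this.1
      · exact this.2
    · intro g
      refine ⟨![fun n => (g n).unpair.1, fun n => (g n).unpair.2], ?_⟩
      funext n
      exact Nat.pair_unpair (g n)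
  proj m i := by
    funext n
    fin_cases i
    · show (Nat.pair (m 0 n) (m 1 n)).unpair.1 = m 0 n
      simp
    · show (Nat.pair (m 0 n) (m 1 n)).unpair.2 = m 1 n
      simp

theorem result (U : Type) [Monoid U] (s : CP U 2) (hU : IsInitial s) :
    s.τ 0 ∉ Submonoid.closure (Images U) := by
  obtain ⟨f, ⟨h1, _⟩, _⟩ := hU (Function.End ℕ) natCP
  have : Nontrivial U := by
    refine ⟨s.τ 0, s.τ 1, fun h => ?_⟩
    have h2 : natCP.τ 0 = natCP.τ 1 := by rw [← h1, ← h1, h]
    have h3 := congrFun h2 (Nat.pair 0 1)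
    change (Nat.pair 0 1).unpair.1 = (Nat.pair 0 1).unpair.2 at h3
    simp at h3
  exact not_mem_of_nontrivial s

end Pool.Agent.Results.MP_339db1_al.NotGenerated
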